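import Pool.Agent.W737.SB.Defs

set_option autoImplicit false

namespace Pool.Agent.W605.SB

open Pool.Agent.W737.SB Metric Set Filter Topology

/-- two-jet of a curve at 0 -/
structure J2 {E : Type*} [NormedAddCommGroup E] [NormedSpace ℝ E] (φ : ℝ → E) (a b c : E) : Prop where
  val : φ 0 = a
  ex : ∃ φ' : ℝ → E, (∀ᶠ s in 𝓝 (0 : ℝ), HasDerivAt φ (φ' s) s) ∧ φ' 0 = b ∧ HasDerivAt φ' c 0

theorem J2.nonneg {φ : ℝ → ℝ} {a b c : ℝ} (h : J2 φ a b c) (hmin : IsLocalMin φ 0) : 0 ≤ c := by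
  obtain ⟨hv, φ', h1, h2, h3⟩ := h
  by_contra hc
  push Not at hc
  have hd : deriv φ =ᶠ[𝓝 0] φ' := h1.mono fun s hs => hs.deriv
  have hb : φ' 0 = 0 := by
    have := hmin.deriv_eq_zero
    rwa [h1.self_of_nhds.deriv] at this
  have hneg : IsLocalMin (fun s => -φ s) 0 := by
    apply isLocalMin_of_deriv_deriv_pos
    · have e1 : deriv (fun s => -φ s) =ᶠ[𝓝 0] fun s => -φ' s :=
        h1.mono fun s hs => hs.neg.deriv
      rw [e1.deriv_eq]
      have e2 : deriv (fun s => -φ' s) 0 = -c := h3.neg.deriv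
      rw [e2]
      linarith
    · have e3 : deriv (fun s => -φ s) 0 = -φ' 0 := h1.self_of_nhds.neg.deriv
      rw [e3, hb, neg_zero]
    · exact h1.self_of_nhds.neg.continuousAt
  have hcst : φ =ᶠ[𝓝 0] fun _ => φ 0 := by
    filter_upwards [hmin, hneg] with s hs1 hs2
    linarith
  have h4 : φ' =ᶠ[𝓝 0] fun _ => 0 := by
    have h5 : ∀ᶠ s in 𝓝 (0 : ℝ), φ =ᶠ[𝓝 s] fun _ => φ 0 := hcst.eventually_nhds
    filter_upwards [h1, h5] with s hs1 hs2
    have := hs1.deriv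
    rw [hs2.deriv_eq] at this
    simpa using this.symm
  have h6 : c = 0 := by
    have := h3.deriv
    rw [h4.deriv_eq] at this
    simpa using this.symm
  linarith

theorem J2.comp_fun {E F : Type*} [NormedAddCommGroup E] [NormedSpace ℝ E]
    [NormedAddCommGroup F] [NormedSpace ℝ F] {φ : ℝ → E} {a b c : E} (h : J2 φ a b c)
    {f : E → F} (hf : ContDiffAt ℝ 2 f a) :
    J2 (fun s => f (φ s)) (f a) (fderiv ℝ f a b)
      (fderiv ℝ (fderiv ℝ f) a b b + fderiv ℝ f a c) := by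
  obtain ⟨hv, φ', h1, h2, h3⟩ := h
  refine ⟨by rw [hv], fun s => fderiv ℝ f (φ s) (φ' s), ?_, by simp [hv, h2], ?_⟩
  · have hcont : ContinuousAt φ 0 := h1.self_of_nhds.continuousAt
    have h4 : ∀ᶠ x in 𝓝 a, DifferentiableAt ℝ f x := by
      have := hf.eventually (by simp)
      exact this.mono fun x hx => hx.differentiableAt (by simp)
    rw [← hv] at h4
    filter_upwards [hcont.eventually h4, h1] with s hs1 hs2
    exact hs1.hasFDerivAt.comp_hasDerivAt s hs2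
  · have h5 : HasFDerivAt (fderiv ℝ f) (fderiv ℝ (fderiv ℝ f) a) a := by
      have : ContDiffAt ℝ 1 (fderiv ℝ f) a := hf.fderiv_right (by norm_num)
      exact (this.differentiableAt (by simp)).hasFDerivAt
    rw [← hv] at h5
    have h6 : HasDerivAt (fun s => fderiv ℝ f (φ s)) (fderiv ℝ (fderiv ℝ f) (φ 0) b) 0 := by
      have := h5.comp_hasDerivAt (0 : ℝ) (h1.self_of_nhds)
      rwa [h2] at this
    have h7 := h6.clm_apply h3
    rw [h2, hv] at h7
    exact h7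

theorem J2.comp_real {φ : ℝ → ℝ} {a b c : ℝ} (h : J2 φ a b c)
    {f f' : ℝ → ℝ} {d : ℝ} (hf : ∀ᶠ x in 𝓝 a, HasDerivAt f (f' x) x) (hf' : HasDerivAt f' d a) :
    J2 (fun s => f (φ s)) (f a) (f' a * b) (d * b * b + f' a * c) := by
  obtain ⟨hv, φ', h1, h2, h3⟩ := h
  refine ⟨by rw [hv], fun s => f' (φ s) * φ' s, ?_, by simp [hv, h2], ?_⟩
  · have hcont : ContinuousAt φ 0 := h1.self_of_nhds.continuousAt
    rw [← hv] at hf
    filter_upwards [hcont.eventually hf, h1] with s hs1 hs2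
    exact hs1.comp s hs2
  · rw [← hv] at hf'
    have h6 : HasDerivAt (fun s => f' (φ s)) (d * b) 0 := by
      have := hf'.comp (0 : ℝ) (h1.self_of_nhds)
      rwa [h2] at this
    have h7 := h6.mul h3
    simp only [hv, h2] at h7
    exact h7

theorem J2.log {φ : ℝ → ℝ} {a b c : ℝ} (h : J2 φ a b c) (ha : 0 < a) :
    J2 (fun s => Real.log (φ s)) (Real.log a) (b / a) (c / a - (b / a) ^ 2) := by
  have h1 : ∀ᶠ x in 𝓝 a, HasDerivAt Real.log ((fun x : ℝ => x⁻¹) x) x := by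
    filter_upwards [lt_mem_nhds ha] with x hx
    exact Real.hasDerivAt_log hx.ne'
  have h2 := h.comp_real h1 (hasDerivAt_inv ha.ne')
  convert h2 using 1
  · ring
  · field_simp
    ring

theorem J2.exp {φ : ℝ → ℝ} {a b c : ℝ} (h : J2 φ a b c) :
    J2 (fun s => Real.exp (φ s)) (Real.exp a) (Real.exp a * b) (Real.exp a * (c + b ^ 2)) := by
  have h1 : ∀ᶠ x in 𝓝 a, HasDerivAt Real.exp (Real.exp x) x :=
    Eventually.of_forall fun x => Real.hasDerivAt_exp x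
  have h2 := h.comp_real h1 (Real.hasDerivAt_exp a)
  convert h2 using 1
  ring

theorem J2.add {E : Type*} [NormedAddCommGroup E] [NormedSpace ℝ E] {φ ψ : ℝ → E}
    {a b c a' b' c' : E} (h : J2 φ a b c) (h' : J2 ψ a' b' c') :
    J2 (fun s => φ s + ψ s) (a + a') (b + b') (c + c') := by
  obtain ⟨hv, φ', h1, h2, h3⟩ := h
  obtain ⟨kv, ψ', k1, k2, k3⟩ := h'
  refine ⟨by rw [hv, kv], fun s => φ' s + ψ' s, ?_, by simp [h2, k2], h3.add k3⟩
  filter_upwards [h1, k1] with s hs ks using hs.add ks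

theorem J2.const_mul {φ : ℝ → ℝ} {a b c : ℝ} (h : J2 φ a b c) (k : ℝ) :
    J2 (fun s => k * φ s) (k * a) (k * b) (k * c) := by
  obtain ⟨hv, φ', h1, h2, h3⟩ := h
  refine ⟨by rw [hv], fun s => k * φ' s, ?_, by simp [h2], h3.const_mul k⟩
  filter_upwards [h1] with s hs using hs.const_mul k

theorem J2.congr {E : Type*} [NormedAddCommGroup E] [NormedSpace ℝ E] {φ ψ : ℝ → E}
    {a b c : E} (h : J2 φ a b c) (he : ψ =ᶠ[𝓝 0] φ) : J2 ψ a b c := by
  obtain ⟨hv, φ', h1, h2, h3⟩ := h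
  refine ⟨by rw [he.self_of_nhds, hv], φ', ?_, h2, h3⟩
  have := he.eventually_nhds
  filter_upwards [h1, this] with s hs ks
  exact hs.congr_of_eventuallyEq ks

theorem J2.normSq {n : ℕ} {φ : ℝ → V n} {a b c p : V n} (h : J2 φ a b c) :
    J2 (fun s => ‖φ s - p‖ ^ 2) (‖a - p‖ ^ 2) (2 * (inner ℂ (a - p) b : ℂ).re)
      (2 * ‖b‖ ^ 2 + 2 * (inner ℂ (a - p) c : ℂ).re) := by
  obtain ⟨hv, φ', h1, h2, h3⟩ := h
  have e : ∀ x : V n, ‖x‖ ^ 2 = (inner ℂ x x : ℂ).re := fun x => by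
    rw [inner_self_eq_norm_sq_to_K]
    norm_cast
  have sym : ∀ x y : V n, (inner ℂ x y : ℂ).re = (inner ℂ y x : ℂ).re := fun x y =>
    inner_re_symm (𝕜 := ℂ) x y
  refine ⟨by rw [hv], fun s => 2 * (inner ℂ (φ s - p) (φ' s) : ℂ).re, ?_, by simp [hv, h2], ?_⟩
  · filter_upwards [h1] with s hs
    have h4 := (hs.sub_const p).inner ℂ (hs.sub_const p)
    have h5 := Complex.reCLM.hasFDerivAt.comp_hasDerivAt s h4
    have h6 : HasDerivAt (fun s => ‖φ s - p‖ ^ 2)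
        (Complex.reCLM (inner ℂ (φ s - p) (φ' s) + inner ℂ (φ' s) (φ s - p))) s := by
      refine h5.congr_of_eventuallyEq (Eventually.of_forall fun x => ?_)
      simp only [Function.comp, Complex.reCLM_apply]
      rw [e]
    have e4 : Complex.reCLM ((inner ℂ (φ s - p) (φ' s) : ℂ) + inner ℂ (φ' s) (φ s - p))
        = 2 * (inner ℂ (φ s - p) (φ' s) : ℂ).re := by
      rw [Complex.reCLM_apply, Complex.add_re, sym (φ' s)]
      ring
    rw [e4] at h6
    exact h6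
  · have h0 := h1.self_of_nhds
    rw [h2] at h0
    have h4 := (h0.sub_const p).inner ℂ h3
    have h5 := (Complex.reCLM.hasFDerivAt.comp_hasDerivAt 0 h4).const_mul 2
    have h6 : HasDerivAt (fun s => 2 * (inner ℂ (φ s - p) (φ' s) : ℂ).re)
        (2 * Complex.reCLM (inner ℂ (φ 0 - p) c + inner ℂ b (φ' 0))) 0 := by
      refine h5.congr_of_eventuallyEq (Eventually.of_forall fun x => ?_)
      simp only [Function.comp, Complex.reCLM_apply]
    have e4 : 2 * Complex.reCLM ((inner ℂ (φ 0 - p) c : ℂ) + inner ℂ b (φ' 0))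
        = 2 * ‖b‖ ^ 2 + 2 * (inner ℂ (a - p) c : ℂ).re := by
      rw [Complex.reCLM_apply, Complex.add_re, h2, ← e, hv]
      ring
    rw [e4] at h6
    exact h6

theorem J2.holo {n : ℕ} {γ : ℂ → V n} {U : Set ℂ} (hU : IsOpen U) (hγ : DifferentiableOn ℂ γ U)
    {z : ℂ} (hz : z ∈ U) (d : ℂ) :
    J2 (fun s : ℝ => γ (z + s * d)) (γ z) (d • deriv γ z) ((d * d) • deriv (deriv γ) z) := by
  have hl : ∀ s : ℝ, HasDerivAt (fun s : ℝ => z + (s : ℂ) * d) d s := fun s => by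
    have h1 : HasDerivAt (fun s : ℝ => (s : ℂ)) 1 s := Complex.ofRealCLM.hasDerivAt
    have := (h1.mul_const d).const_add z
    simpa using this
  have hc : ContinuousAt (fun s : ℝ => z + (s : ℂ) * d) 0 := (hl 0).continuousAt
  have hmem : ∀ᶠ s : ℝ in 𝓝 0, z + (s : ℂ) * d ∈ U :=
    hc.eventually (by simpa using hU.mem_nhds hz)
  refine ⟨by simp, fun s => d • deriv γ (z + s * d), ?_, by simp, ?_⟩
  · filter_upwards [hmem] with s hs
    have h1 : HasDerivAt γ (deriv γ (z + s * d)) (z + s * d) :=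
      (hγ.differentiableAt (hU.mem_nhds hs)).hasDerivAt
    exact h1.scomp s (hl s)
  · have h1 : HasDerivAt (deriv γ) (deriv (deriv γ) z) z :=
      ((hγ.deriv hU).differentiableAt (hU.mem_nhds hz)).hasDerivAt
    have h0 : z + ((0 : ℝ) : ℂ) * d = z := by simp
    rw [← h0] at h1
    have h2 := h1.scomp (0 : ℝ) (hl 0)
    have h3 := h2.const_smul d
    rw [smul_smul, h0] at h3
    exact h3

theorem key_ineq {C₁ L r₂ N x₁ x₂ Y₁ Y₂ D : ℝ} (hC : 0 < C₁) (hL : L = C₁ ^ 2)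
    (hr : 6 * L * r₂ ^ 2 ≤ 1) (hD : D ≤ C₁ * N * (|x₁| + |x₂|))
    (hY₁ : Y₁ ^ 2 ≤ (2 * r₂ * N) ^ 2) (hY₂ : Y₂ ^ 2 ≤ (2 * r₂ * N) ^ 2) :
    (D - x₁ ^ 2 - x₂ ^ 2 - 4 * L * N ^ 2) / 2
      + ((x₁ - L * Y₁) ^ 2 + (x₂ - L * Y₂) ^ 2) / 4 ≤ 0 := by
  have hL0 : 0 < L := by rw [hL]; positivity
  have a1 : ∀ x Y : ℝ, Y ^ 2 ≤ (2 * r₂ * N) ^ 2 →
      (x - L * Y) ^ 2 ≤ 3 / 2 * x ^ 2 + 12 * L ^ 2 * r₂ ^ 2 * N ^ 2 := by
    intro x Y hY
    have h1 : (x - L * Y) ^ 2 ≤ 3 / 2 * x ^ 2 + 3 * L ^ 2 * Y ^ 2 := by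
      nlinarith [sq_nonneg (x / 2 + L * Y), sq_nonneg (x + 2 * L * Y)]
    have h2 : 3 * L ^ 2 * Y ^ 2 ≤ 3 * L ^ 2 * (2 * r₂ * N) ^ 2 :=
      mul_le_mul_of_nonneg_left hY (by positivity)
    nlinarith
  have a2 : ∀ x : ℝ, C₁ * N * |x| ≤ 1 / 4 * x ^ 2 + L * N ^ 2 := by
    intro x
    rw [hL]
    have : 0 ≤ (|x| / 2 - C₁ * N) ^ 2 := sq_nonneg _
    have h3 : |x| ^ 2 = x ^ 2 := sq_abs x
    nlinarith
  have b1 := a1 x₁ Y₁ hY₁
  have b2 := a1 x₂ Y₂ hY₂
  have b3 := a2 x₁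
  have b4 := a2 x₂
  have b5 : 6 * L ^ 2 * r₂ ^ 2 * N ^ 2 ≤ L * N ^ 2 := by
    have : L * N ^ 2 * (6 * L * r₂ ^ 2) ≤ L * N ^ 2 * 1 :=
      mul_le_mul_of_nonneg_left hr (by positivity)
    nlinarith
  nlinarith

/-- the auxiliary superharmonic function -/
noncomputable def Gt {n : ℕ} (h : V n → ℝ) (p : V n) (L : ℝ) (x : V n) : ℝ :=
  Real.exp (1 / 2 * (Real.log (h x) + (-L) * ‖x - p‖ ^ 2))

theorem jets {n : ℕ} {p : V n} {h : V n → ℝ} {r₁ C₁ r₂ L : ℝ} (hC₁ : 0 < C₁) (hL : L = C₁ ^ 2)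
    (hh : ContDiffOn ℝ 2 h (ball p r₁))
    (hH : ∀ w ∈ ball p r₁, ∀ v : V n,
      H4 h w v ≤ C₁ * ‖v‖ * (|fderiv ℝ h w v| + |fderiv ℝ h w (Complex.I • v)|))
    (h21 : r₂ ≤ r₁) (hr2 : 0 < r₂) (hr : 6 * L * r₂ ^ 2 ≤ 1) {γ : ℂ → V n} {U : Set ℂ}
    (hU : IsOpen U)
    (hγ : DifferentiableOn ℂ γ U) (hm : MapsTo γ U (ball p r₂)) (hpos : ∀ t ∈ U, 0 < h (γ t))
    {z : ℂ} (hz : z ∈ U) :
    ∃ a b₁ c₁ b₂ c₂ : ℝ, J2 (fun s : ℝ => Gt h p L (γ (z + s * 1))) a b₁ c₁ ∧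
      J2 (fun s : ℝ => Gt h p L (γ (z + s * Complex.I))) a b₂ c₂ ∧ c₁ + c₂ ≤ 0 := by
  have hx : γ z ∈ ball p r₁ := ball_subset_ball h21 (hm hz)
  have hcd : ContDiffAt ℝ 2 h (γ z) := hh.contDiffAt (isOpen_ball.mem_nhds hx)
  have gen : ∀ d : ℂ, J2 (fun s : ℝ => Gt h p L (γ (z + s * d))) _ _ _ := fun d =>
    (((((J2.holo hU hγ hz d).comp_fun hcd).log (hpos z hz)).add
      (((J2.holo hU hγ hz d).normSq (p := p)).const_mul (-L))).const_mul (1 / 2)).exp
  refine ⟨_, _, _, _, _, gen 1, gen Complex.I, ?_⟩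
  rw [← mul_add]
  refine mul_nonpos_of_nonneg_of_nonpos (Real.exp_pos _).le ?_
  set v := deriv γ z with hv
  set w := deriv (deriv γ) z with hw
  set H := h (γ z) with hHd
  have hHpos : 0 < H := hpos z hz
  have hN : 0 ≤ ‖v‖ := norm_nonneg _
  have e1 : (1 : ℂ) • v = v := one_smul _ _
  have e2 : ((1 : ℂ) * 1) • w = w := by rw [mul_one, one_smul]
  have e3 : (Complex.I * Complex.I) • w = -w := by rw [Complex.I_mul_I, neg_smul, one_smul]
  have e4 : ‖Complex.I • v‖ = ‖v‖ := by rw [norm_smul, Complex.norm_I, one_mul]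
  rw [e1, e2, e3, e4]
  have hHv := hH (γ z) hx v
  unfold H4 at hHv
  set X₁ := fderiv ℝ h (γ z) v with hX₁
  set X₂ := fderiv ℝ h (γ z) (Complex.I • v) with hX₂
  set Q₁ := fderiv ℝ (fderiv ℝ h) (γ z) v v with hQ₁
  set Q₂ := fderiv ℝ (fderiv ℝ h) (γ z) (Complex.I • v) (Complex.I • v) with hQ₂
  have hneg : fderiv ℝ h (γ z) (-w) = -fderiv ℝ h (γ z) w := map_neg _ _
  rw [hneg]
  set W := fderiv ℝ h (γ z) w with hW
  have hneg2 : (inner ℂ (γ z - p) (-w) : ℂ).re = -(inner ℂ (γ z - p) w : ℂ).re := by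
    rw [inner_neg_right, Complex.neg_re]
  rw [hneg2]
  set P := (inner ℂ (γ z - p) w : ℂ).re with hP
  set Y₁ := (inner ℂ (γ z - p) v : ℂ).re with hY₁
  set Y₂ := (inner ℂ (γ z - p) (Complex.I • v) : ℂ).re with hY₂
  have hb : ‖γ z - p‖ < r₂ := by
    have := hm hz
    rwa [mem_ball, dist_eq_norm] at this
  have hYb : ∀ u : V n, ‖u‖ = ‖v‖ → (2 * (inner ℂ (γ z - p) u : ℂ).re) ^ 2 ≤ (2 * r₂ * ‖v‖) ^ 2 := by
    intro u hu
    have k1 : |(inner ℂ (γ z - p) u : ℂ).re| ≤ ‖γ z - p‖ * ‖u‖ :=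
      (Complex.abs_re_le_norm _).trans (norm_inner_le_norm _ _)
    have k2 : |(inner ℂ (γ z - p) u : ℂ).re| ≤ r₂ * ‖v‖ := by
      refine k1.trans ?_
      rw [hu]
      exact mul_le_mul_of_nonneg_right hb.le hN
    have k4 : 0 ≤ 2 * r₂ * ‖v‖ := by positivity
    have k3 : |2 * (inner ℂ (γ z - p) u : ℂ).re| ≤ |2 * r₂ * ‖v‖| := by
      rw [abs_of_nonneg k4, abs_mul, abs_of_pos (by norm_num : (0 : ℝ) < 2)]
      linarith
    exact sq_le_sq.mpr k3
  have key := key_ineq (D := (Q₁ + Q₂) / H) (x₁ := X₁ / H) (x₂ := X₂ / H) (Y₁ := 2 * Y₁)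
    (Y₂ := 2 * Y₂) hC₁ hL hr (by
      rw [abs_div, abs_div, abs_of_pos hHpos, ← add_div, ← mul_div_assoc]
      exact div_le_div_of_nonneg_right hHv hHpos.le) (hYb v rfl) (hYb _ e4)
  refine le_trans (le_of_eq ?_) key
  field_simp
  ring

theorem annulus {n : ℕ} {p : V n} {h : V n → ℝ} {r₁ C₁ r₂ L : ℝ} (hC₁ : 0 < C₁)
    (hL : L = C₁ ^ 2) (hh : ContDiffOn ℝ 2 h (ball p r₁))
    (hH : ∀ w ∈ ball p r₁, ∀ v : V n,
      H4 h w v ≤ C₁ * ‖v‖ * (|fderiv ℝ h w v| + |fderiv ℝ h w (Complex.I • v)|))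
    (h21 : r₂ ≤ r₁) (hr2 : 0 < r₂) (hr6 : 6 * L * r₂ ^ 2 ≤ 1) {g : ℂ → V n} {R r R' : ℝ}
    (hr0 : 0 < r) (hrR : r < R') (hRR : R' < R)
    (hg : DifferentiableOn ℂ g (ball 0 R)) (hgm : MapsTo g (ball 0 R) (ball p r₂))
    (hpos : ∀ t ∈ ball (0 : ℂ) R, 0 < h (g t)) {m ε : ℝ} (hm : 0 < m) (hε : 0 < ε)
    (hbd : ∀ t : ℂ, ‖t‖ = r → m ≤ Gt h p L (g t)) {t : ℂ} (ht1 : r ≤ ‖t‖) (ht2 : ‖t‖ ≤ R') :
    0 ≤ Gt h p L (g t) - m / (Real.log R' - Real.log r) * (Real.log R' - Real.log ‖t‖)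
      - ε * ((Real.log ‖t‖ - Real.log r) * (Real.log ‖t‖ - Real.log R')) := by
  set a := Real.log r with ha
  set b := Real.log R' with hb
  have hab : a < b := Real.log_lt_log hr0 hrR
  set κ := m / (b - a) with hκ
  have hκ0 : 0 < κ := div_pos hm (by linarith)
  set u : ℂ → ℝ := fun t => Gt h p L (g t) - κ * (b - Real.log ‖t‖)
      - ε * ((Real.log ‖t‖ - a) * (Real.log ‖t‖ - b)) with hu
  change 0 ≤ u t
  set K : Set ℂ := {t | r ≤ ‖t‖ ∧ ‖t‖ ≤ R'} with hK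
  have hKc : IsCompact K := by
    have : K = closedBall 0 R' ∩ {t | r ≤ ‖t‖} := by
      ext t; simp [hK, and_comm]
    rw [this]
    exact (isCompact_closedBall _ _).inter_right (isClosed_le continuous_const continuous_norm)
  have hKR : ∀ t ∈ K, t ∈ ball (0 : ℂ) R := fun t ht => by
    rw [mem_ball_zero_iff]; exact ht.2.trans_lt hRR
  have hK0 : ∀ t ∈ K, 0 < ‖t‖ := fun t ht => hr0.trans_le ht.1
  have hcont : ContinuousOn u K := by
    have h1 : ContinuousOn g K := hg.continuousOn.mono fun t ht => hKR t ht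
    have h2 : ContinuousOn (fun t => h (g t)) K := by
      refine hh.continuousOn.comp h1 fun t ht => ?_
      exact ball_subset_ball h21 (hgm (hKR t ht))
    have h3 : ContinuousOn (fun t => Real.log (h (g t))) K :=
      h2.log fun t ht => (hpos t (hKR t ht)).ne'
    have h4 : ContinuousOn (fun t : ℂ => Real.log ‖t‖) K :=
      continuous_norm.continuousOn.log fun t ht => (hK0 t ht).ne'
    have h5 : ContinuousOn (fun t => Gt h p L (g t)) K := by
      unfold Gt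
      refine Real.continuous_exp.comp_continuousOn ?_
      refine continuousOn_const.mul (h3.add (continuousOn_const.mul ?_))
      exact (h1.sub continuousOn_const).norm.pow 2
    exact (h5.sub (continuousOn_const.mul (continuousOn_const.sub h4))).sub
      (continuousOn_const.mul ((h4.sub continuousOn_const).mul (h4.sub continuousOn_const)))
  obtain ⟨t₀, ht₀, hmin⟩ := hKc.exists_isMinOn ⟨t, ht1, ht2⟩ hcont
  refine le_trans ?_ (hmin ⟨ht1, ht2⟩)
  by_contra hneg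
  push Not at hneg
  -- t₀ is an interior point
  have hl1 : a ≤ Real.log ‖t₀‖ := Real.log_le_log hr0 ht₀.1
  have hl2 : Real.log ‖t₀‖ ≤ b := Real.log_le_log (hK0 _ ht₀) ht₀.2
  have hGpos : ∀ x, 0 < Gt h p L x := fun x => Real.exp_pos _
  have hi1 : r ≠ ‖t₀‖ := by
    intro he
    have e1 : Real.log ‖t₀‖ = a := by rw [← he]
    have e2 : u t₀ = Gt h p L (g t₀) - m := by
      simp only [hu, e1, hκ]
      field_simp [(by linarith : b - a ≠ 0)]
      ring
    have e3 := hbd t₀ he.symm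
    linarith
  have hi2 : ‖t₀‖ ≠ R' := by
    intro he
    have e1 : Real.log ‖t₀‖ = b := by rw [he]
    have e2 : u t₀ = Gt h p L (g t₀) := by
      simp only [hu, e1]
      ring
    have e3 := hGpos (g t₀)
    linarith
  have hj1 : r < ‖t₀‖ := lt_of_le_of_ne ht₀.1 hi1
  have hj2 : ‖t₀‖ < R' := lt_of_le_of_ne ht₀.2 hi2
  have ht0' : t₀ ≠ 0 := norm_pos_iff.mp (hK0 _ ht₀)
  set z := Complex.log t₀ with hz
  have hez : Complex.exp z = t₀ := Complex.exp_log ht0'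
  set γ : ℂ → V n := fun z => g (Complex.exp z) with hγd
  set U : Set ℂ := Complex.exp ⁻¹' (ball 0 R) with hUd
  have hU : IsOpen U := isOpen_ball.preimage Complex.continuous_exp
  have hzU : z ∈ U := by
    change Complex.exp z ∈ ball 0 R
    rw [hez]; exact hKR _ ht₀
  have hγ : DifferentiableOn ℂ γ U :=
    hg.comp Complex.differentiable_exp.differentiableOn fun x hx => hx
  obtain ⟨A, b₁, c₁, b₂, c₂, j1, j2, hc⟩ := jets (γ := γ) hC₁ hL hh hH h21 hr2 hr6 hU hγ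
    (fun x hx => hgm hx) (fun x hx => hpos _ hx) hzU
  -- norm of exp along lines
  have hre : ∀ x : ℂ, Real.log ‖Complex.exp x‖ = x.re := fun x => by
    rw [Complex.norm_exp, Real.log_exp]
  have hloc : ∀ d : ℂ, ∀ᶠ s : ℝ in 𝓝 0, u (Complex.exp z) ≤ u (Complex.exp (z + s * d)) := by
    intro d
    have hc1 : Continuous fun s : ℝ => ‖Complex.exp (z + s * d)‖ := by fun_prop
    have hv : ‖Complex.exp (z + ((0 : ℝ) : ℂ) * d)‖ = ‖t₀‖ := by simp [hez]
    have h1 : ∀ᶠ s : ℝ in 𝓝 0, r < ‖Complex.exp (z + s * d)‖ :=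
      hc1.continuousAt.eventually (lt_mem_nhds (by simpa only [hv] using hj1))
    have h2 : ∀ᶠ s : ℝ in 𝓝 0, ‖Complex.exp (z + s * d)‖ < R' :=
      hc1.continuousAt.eventually (gt_mem_nhds (by simpa only [hv] using hj2))
    filter_upwards [h1, h2] with s hs1 hs2
    rw [hez]
    exact hmin (a := Complex.exp (z + s * d)) ⟨hs1.le, hs2.le⟩
  -- direction 1
  have q1 : J2 (fun s : ℝ => -κ * (b - (z.re + s)) - ε * ((z.re + s - a) * (z.re + s - b)))
      (-κ * (b - z.re) - ε * ((z.re - a) * (z.re - b)))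
      (κ - ε * (2 * z.re - a - b)) (-(2 * ε)) := by
    refine ⟨by simp, fun s => κ - ε * (2 * (z.re + s) - a - b), ?_, by simp, ?_⟩
    · refine Eventually.of_forall fun s => ?_
      have k1 : HasDerivAt (fun s : ℝ => z.re + s) 1 s := (hasDerivAt_id s).const_add _
      have k2 := ((k1.const_sub b).const_mul (-κ)).sub
        (((k1.sub_const a).mul (k1.sub_const b)).const_mul ε)
      exact k2.congr_deriv (by ring)
    · have k1 : HasDerivAt (fun s : ℝ => z.re + s) 1 0 := (hasDerivAt_id 0).const_add _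
      have k2 := ((((k1.const_mul 2).sub_const a).sub_const b).const_mul ε).const_sub κ
      exact k2.congr_deriv (by ring)
  have r1 := (j1.add q1).nonneg (by
    have := hloc 1
    filter_upwards [this] with s hs
    simp only [hu, hre] at hs
    simp only [hγd]
    simp only [Complex.ofReal_zero, zero_mul, add_zero]
    have e5 : (z + (s : ℂ) * 1).re = z.re + s := by simp
    rw [e5] at hs
    simp only [mul_one] at hs ⊢
    linarith)
  have r2 := j2.nonneg (by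
    have := hloc Complex.I
    filter_upwards [this] with s hs
    simp only [hu, hre] at hs
    simp only [hγd]
    simp only [Complex.ofReal_zero, zero_mul, add_zero]
    have e5 : (z + (s : ℂ) * Complex.I).re = z.re := by simp
    rw [e5] at hs
    linarith)
  linarith

theorem t_wh : S_wh := by
  intro n p h r₁ C₁ hr₁ hC₁ hh hH
  set L := C₁ ^ 2 with hL
  have hLpos : 0 < L := by positivity
  set r₂ := min r₁ (1 / (3 * C₁)) with hr₂
  have hr2pos : 0 < r₂ := lt_min hr₁ (by positivity)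
  have h21 : r₂ ≤ r₁ := min_le_left _ _
  have h6 : 6 * L * r₂ ^ 2 ≤ 1 := by
    have h1 : r₂ ≤ 1 / (3 * C₁) := min_le_right _ _
    have h2 : C₁ * r₂ ≤ 1 / 3 := by
      have := mul_le_mul_of_nonneg_left h1 hC₁.le
      refine this.trans (le_of_eq ?_)
      field_simp
    have h3 : 0 ≤ C₁ * r₂ := by positivity
    have h4 : (C₁ * r₂) ^ 2 ≤ (1 / 3) ^ 2 := pow_le_pow_left₀ h3 h2 2
    rw [hL]
    nlinarith
  refine ⟨r₂, Real.exp (-(L * r₂ ^ 2)), hr2pos, h21, Real.exp_pos _, ?_⟩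
  intro g r R β hr hrR hβ hg hgm hpos hbd t ht hrt
  -- G² ≤ h and bounds of G
  have hGsq : ∀ t ∈ ball (0 : ℂ) R, Gt h p L (g t) ^ 2 = h (g t) * Real.exp (-(L * ‖g t - p‖ ^ 2)) := by
    intro t ht
    unfold Gt
    rw [← Real.exp_nat_mul]
    have e1 : ((2 : ℕ) : ℝ) * (1 / 2 * (Real.log (h (g t)) + -L * ‖g t - p‖ ^ 2))
        = Real.log (h (g t)) + -(L * ‖g t - p‖ ^ 2) := by push_cast; ring
    rw [e1, Real.exp_add, Real.exp_log (hpos t ht)]
  have hGpos : ∀ x, 0 < Gt h p L x := fun x => Real.exp_pos _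
  set m := Real.sqrt (β * Real.exp (-(L * r₂ ^ 2))) with hm
  have hmpos : 0 < m := Real.sqrt_pos.mpr (by positivity)
  have hmsq : m ^ 2 = β * Real.exp (-(L * r₂ ^ 2)) := Real.sq_sqrt (by positivity)
  have hbd' : ∀ t : ℂ, ‖t‖ = r → m ≤ Gt h p L (g t) := by
    intro t ht
    have htR : t ∈ ball (0 : ℂ) R := by rw [mem_ball_zero_iff, ht]; exact hrR
    refine Real.sqrt_le_iff.mpr ⟨(hGpos _).le, ?_⟩
    rw [hGsq t htR]
    have h1 : ‖g t - p‖ < r₂ := by
      have := hgm htR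
      rwa [mem_ball, dist_eq_norm] at this
    have h2 : ‖g t - p‖ ^ 2 ≤ r₂ ^ 2 := pow_le_pow_left₀ (norm_nonneg _) h1.le 2
    refine mul_le_mul (hbd t ht) (Real.exp_le_exp.mpr ?_) (Real.exp_pos _).le (hpos t htR).le
    have := mul_le_mul_of_nonneg_left h2 hLpos.le
    linarith
  rw [mem_ball_zero_iff] at ht
  have htpos : 0 < ‖t‖ := hr.trans_le hrt
  -- limit ε → 0
  have hb1 : ∀ R', ‖t‖ < R' → R' < R →
      m / (Real.log R' - Real.log r) * (Real.log R' - Real.log ‖t‖) ≤ Gt h p L (g t) := by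
    intro R' h1 h2
    set D := (Real.log ‖t‖ - Real.log r) * (Real.log ‖t‖ - Real.log R') with hD
    refine le_of_forall_pos_le_add fun δ hδ => ?_
    have hε : 0 < δ / (|D| + 1) := by positivity
    have := annulus hC₁ hL hh hH h21 hr2pos h6 hr (hrt.trans_lt h1) h2 hg hgm hpos hmpos hε hbd'
      hrt h1.le
    have h3 : -δ ≤ δ / (|D| + 1) * D := by
      have h4 : δ / (|D| + 1) * |D| ≤ δ := by
        rw [div_mul_eq_mul_div, div_le_iff₀ (by positivity)]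
        nlinarith [abs_nonneg D]
      have h5 : -|D| ≤ D := neg_abs_le D
      have h6 := mul_le_mul_of_nonneg_left h5 hε.le
      linarith
    linarith
  -- limit R' → R
  have hR0 : 0 < R := hr.trans hrR
  have hlim : Real.log R - Real.log r > 0 := sub_pos.mpr (Real.log_lt_log hr hrR)
  have hb2 : m / (Real.log R - Real.log r) * (Real.log R - Real.log ‖t‖) ≤ Gt h p L (g t) := by
    have hcl : ContinuousAt (fun R' => m / (Real.log R' - Real.log r) * (Real.log R' - Real.log ‖t‖))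
        R := by
      have hlog : ContinuousAt Real.log R := Real.continuousAt_log hR0.ne'
      exact (continuousAt_const.div (hlog.sub continuousAt_const) hlim.ne').mul
        (hlog.sub continuousAt_const)
    refine le_of_tendsto (hcl.tendsto.mono_left (nhdsWithin_le_nhds (s := Iio R))) ?_
    have : ∀ᶠ R' in 𝓝[<] R, ‖t‖ < R' := by
      filter_upwards [mem_nhdsWithin_of_mem_nhds (lt_mem_nhds ht)] with R' hR' using hR'
    filter_upwards [this, self_mem_nhdsWithin] with R' h1 h2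
    exact hb1 R' h1 h2
  have e1 : Real.log (R / ‖t‖) = Real.log R - Real.log ‖t‖ := Real.log_div hR0.ne' htpos.ne'
  have e2 : Real.log (R / r) = Real.log R - Real.log r := Real.log_div hR0.ne' hr.ne'
  rw [e1, e2]
  have h0 : 0 ≤ Real.log R - Real.log ‖t‖ := sub_nonneg.mpr (Real.log_le_log htpos ht.le)
  have h1 : 0 ≤ m / (Real.log R - Real.log r) * (Real.log R - Real.log ‖t‖) := by positivity
  have h2 := pow_le_pow_left₀ h1 hb2 2
  have h3 : Gt h p L (g t) ^ 2 ≤ h (g t) := by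
    rw [hGsq t (by rw [mem_ball_zero_iff]; exact ht)]
    have h4 : Real.exp (-(L * ‖g t - p‖ ^ 2)) ≤ 1 := by
      rw [Real.exp_le_one_iff]
      have : 0 ≤ L * ‖g t - p‖ ^ 2 := by positivity
      linarith
    have h5 := hpos t (by rw [mem_ball_zero_iff]; exact ht)
    nlinarith
  refine le_trans (le_of_eq ?_) (h2.trans h3)
  rw [mul_pow (m / _), div_pow m, hmsq]
  rw [div_pow]
  ring

end Pool.Agent.W605.SB
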